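import Mathlib
import Pool.Agent.H.MP_3b0279_pr.Main

set_option autoImplicit false

namespace Pool.Agent.Results.MP_3b0279_pr.UniformConstant

/-- The connected simple graphs on `{1, …, n}` in which the vertex `i` has degree `d i`. -/
def Realizations {n : ℕ} (d : Fin n → ℕ) : Set (SimpleGraph (Fin n)) :=
  {G | G.Connected ∧ ∀ i : Fin n, (G.neighborSet i).ncard = d i}

/-- The expected diameter of a uniform element of `Realizations d`. -/
noncomputable def meanDiam {n : ℕ} (d : Fin n → ℕ) : ℝ :=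
  (∑ᶠ G ∈ Realizations d, (G.diam : ℝ)) / ((Realizations d).ncard : ℝ)

/-- **Diameter of random connected graphs with a given degree sequence**, with constants that
depend on `ε` only. -/
theorem result (ε : ℝ) (hε : 0 < ε) : ∃ C : ℝ, 0 < C ∧ ∃ s₀ : ℕ, ∀ (n : ℕ) (d : Fin n → ℕ) (s : ℕ),
    ((Finset.univ.filter (fun i : Fin n => d i = 2)).card : ℝ) ≤ (1 - ε) * (n : ℝ) →
    ∑ i, d i + 2 = 2 * n + 2 * s → s₀ ≤ s → (Realizations d).Nonempty →
    meanDiam d ≤ C * (1 + Real.sqrt ((n : ℝ) / (s : ℝ))) * Real.log s := by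
  obtain ⟨C, s₀, hC, H⟩ := Pool.Agent.H.MP_3b0279_pr.main_V ε hε
  refine ⟨C, hC, s₀, ?_⟩
  intro n d s hd2 hs hs₀ hne
  have hset : Realizations d = ((Pool.Agent.H.MP_3b0279_pr.grs d : Finset (SimpleGraph (Fin n))) :
        Set (SimpleGraph (Fin n))) := by
    ext G
    rw [Finset.mem_coe, Pool.Agent.H.MP_3b0279_pr.mem_grs]
    exact Iff.rfl
  have hmain := H (Fin n) d s (by
      rw [Fintype.card_fin]
      convert hd2) (by
      rw [Fintype.card_fin]; omega) hs₀
  have hfin := finsum_mem_coe_finset (fun G : SimpleGraph (Fin n) => (G.diam : ℝ))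
    (Pool.Agent.H.MP_3b0279_pr.grs d)
  rw [← hset] at hfin
  have hncard : ((Realizations d).ncard : ℝ)
      = ((Pool.Agent.H.MP_3b0279_pr.grs d).card : ℝ) := by
    rw [hset, Set.ncard_coe_finset]
  unfold meanDiam
  rw [hfin, hncard]
  rw [Fintype.card_fin] at hmain
  have hpos : (0 : ℝ) < ((Pool.Agent.H.MP_3b0279_pr.grs d).card : ℝ) := by
    obtain ⟨G₀, hG₀⟩ := hne
    have : G₀ ∈ Pool.Agent.H.MP_3b0279_pr.grs d := by
      rw [Pool.Agent.H.MP_3b0279_pr.mem_grs]; exact hG₀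
    exact_mod_cast Finset.card_pos.2 ⟨G₀, this⟩
  rw [div_le_iff₀ hpos]
  exact hmain

end Pool.Agent.Results.MP_3b0279_pr.UniformConstant
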